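import Pool.Agent.Helper88.AD.Stmts

/-! Packet AD-R2 of helper88. -/

namespace Pool.Agent.Helper65.AD

open Pool.Agent.Helper88.AD TensorProduct

variable {N : ℕ}

lemma jac {R : Type} [Ring R] (X Y A : R) : (X * Y - Y * X) * A - A * (X * Y - Y * X) =
    (X * (Y * A - A * Y) - (Y * A - A * Y) * X) -
      (Y * (X * A - A * X) - (X * A - A * X) * Y) := by
  simp only [mul_sub, sub_mul, mul_assoc]
  abel

lemma s1 (c : ℚ) (x y : Module.End ℚ (EE N) ⊗[ℚ] EE N) : c • (x - y) = c • x - c • y :=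
  smul_sub c x y

lemma s2 (x y : Module.End ℚ (EE N) ⊗[ℚ] Module.End ℚ (EE N)) : x - y = x + (-y) :=
  sub_eq_add_neg x y

lemma s3 {ι : Type} (s : Finset ι) (f : ι → Module.End ℚ (EE N) ⊗[ℚ] Module.End ℚ (EE N)) :
    ∑ i ∈ s, (- f i) = - ∑ i ∈ s, f i :=
  Finset.sum_neg_distrib f

/-- `ad X`. -/
noncomputable def adL (X : Module.End ℚ (EE N)) :
    Module.End ℚ (EE N) →ₗ[ℚ] Module.End ℚ (EE N) :=
  LinearMap.mulLeft ℚ X - LinearMap.mulRight ℚ X

lemma adL_apply (X Y : Module.End ℚ (EE N)) : adL X Y = X * Y - Y * X := by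
  simp [adL]

/-- evaluation of the legs as operators -/
noncomputable def LL : (Lg N →₀ EE N) →ₗ[ℚ] (Module.End ℚ (EE N) ⊗[ℚ] EE N) :=
  Finsupp.lsum ℚ fun l => TensorProduct.mk ℚ (Module.End ℚ (EE N)) (EE N) (actM l)

lemma LL_single (l : Lg N) (v : EE N) : LL (Finsupp.single l v) = actM l ⊗ₜ[ℚ] v := by
  simp [LL]

lemma LL_apply (x : Lg N →₀ EE N) : LL x = x.sum fun l v' => actM l ⊗ₜ[ℚ] v' := by
  simp [LL, Finsupp.sum]

/-- `D` evaluated. -/
noncomputable def DD : (Lg N × Lg N →₀ ℚ) →ₗ[ℚ]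
    (Module.End ℚ (EE N) ⊗[ℚ] Module.End ℚ (EE N)) :=
  Finsupp.linearCombination ℚ fun pq => actM pq.1 ⊗ₜ[ℚ] actM pq.2

lemma DD_single (p : Lg N × Lg N) (c : ℚ) :
    DD (Finsupp.single p c) = c • (actM p.1 ⊗ₜ[ℚ] actM p.2) := by
  simp [DD]

/-- evaluation at `v`. -/
noncomputable def ev (v : EE N) : (Module.End ℚ (EE N) ⊗[ℚ] Module.End ℚ (EE N)) →ₗ[ℚ]
    (Module.End ℚ (EE N) ⊗[ℚ] EE N) :=
  LinearMap.lTensor _ (LinearMap.applyₗ v)

lemma ev_tmul (v : EE N) (A B : Module.End ℚ (EE N)) : ev v (A ⊗ₜ[ℚ] B) = A ⊗ₜ[ℚ] (B v) := by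
  simp [ev]

/-- `T_X`. -/
noncomputable def TT (X : Module.End ℚ (EE N)) : (Module.End ℚ (EE N) ⊗[ℚ] EE N) →ₗ[ℚ]
    (Module.End ℚ (EE N) ⊗[ℚ] EE N) :=
  LinearMap.lTensor _ X + LinearMap.rTensor _ (adL X)

lemma TT_tmul (X A : Module.End ℚ (EE N)) (v : EE N) :
    TT X (A ⊗ₜ[ℚ] v) = A ⊗ₜ[ℚ] (X v) + (X * A - A * X) ⊗ₜ[ℚ] v := by
  simp [TT, adL_apply]

/-- `ad X` on both factors. -/
noncomputable def a2 (X : Module.End ℚ (EE N)) :
    (Module.End ℚ (EE N) ⊗[ℚ] Module.End ℚ (EE N)) →ₗ[ℚ]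
    (Module.End ℚ (EE N) ⊗[ℚ] Module.End ℚ (EE N)) :=
  LinearMap.rTensor _ (adL X) + LinearMap.lTensor _ (adL X)

lemma a2_tmul (X A B : Module.End ℚ (EE N)) :
    a2 X (A ⊗ₜ[ℚ] B) = (X * A - A * X) ⊗ₜ[ℚ] B + A ⊗ₜ[ℚ] (X * B - B * X) := by
  simp [a2, adL_apply]

/-- `R2` for the operator `X` with cobracket `D`. -/
def PP (X : Module.End ℚ (EE N)) (D : Module.End ℚ (EE N) ⊗[ℚ] Module.End ℚ (EE N)) : Prop :=
  ∀ v : EE N, LL (hM (X v)) = TT X (LL (hM v)) - ev v D

lemma TT_ev (X : Module.End ℚ (EE N)) (D : Module.End ℚ (EE N) ⊗[ℚ] Module.End ℚ (EE N))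
    (v : EE N) : TT X (ev v D) - ev (X v) D = ev v (a2 X D) := by
  induction D using TensorProduct.induction_on with
  | zero => simp
  | tmul A B =>
    rw [ev_tmul, ev_tmul, TT_tmul, a2_tmul, map_add, ev_tmul, ev_tmul]
    have : (X * B - B * X) v = X (B v) - B (X v) := by
      simp [LinearMap.sub_apply, Module.End.mul_apply]
    rw [this, tmul_sub]
    abel
  | add x y hx hy =>
    simp only [map_add] at *
    rw [← hx, ← hy]
    abel

lemma TT_comm (X Y : Module.End ℚ (EE N)) (x : Module.End ℚ (EE N) ⊗[ℚ] EE N) :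
    TT X (TT Y x) - TT Y (TT X x) = TT (X * Y - Y * X) x := by
  induction x using TensorProduct.induction_on with
  | zero => simp
  | tmul A v =>
    simp only [TT_tmul, map_add]
    have h1 : (X * Y - Y * X) v = X (Y v) - Y (X v) := by
      simp [LinearMap.sub_apply, Module.End.mul_apply]
    rw [h1, tmul_sub]
    have h2 : (X * Y - Y * X) * A - A * (X * Y - Y * X) =
        (X * (Y * A - A * Y) - (Y * A - A * Y) * X) -
          (Y * (X * A - A * X) - (X * A - A * X) * Y) := jac X Y A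
    rw [h2, sub_tmul (X * (Y * A - A * Y) - (Y * A - A * Y) * X)]
    abel
  | add x y hx hy =>
    simp only [map_add] at *
    rw [← hx, ← hy]
    abel

lemma PP_bracket (X Y : Module.End ℚ (EE N))
    (D F : Module.End ℚ (EE N) ⊗[ℚ] Module.End ℚ (EE N)) (hX : PP X D) (hY : PP Y F) :
    PP (X * Y - Y * X) (a2 X F - a2 Y D) := by
  intro v
  have h1 : (X * Y - Y * X) v = X (Y v) - Y (X v) := by
    simp [LinearMap.sub_apply, Module.End.mul_apply]
  rw [h1, map_sub, map_sub, hX (Y v), hY (X v), hX v, hY v, ← TT_comm, map_sub, map_sub, map_sub,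
    ← TT_ev, ← TT_ev]
  abel

lemma hM_single (w : List (Bx N)) (a : Fin N) :
    hM (Finsupp.single (w, a) (1 : ℚ)) = hW w a := by
  simp [hM]

lemma mu_single (m : Bx N) (w : List (Bx N)) (a : Fin N) (c : ℚ) :
    mu m (Finsupp.single (w, a) c) = Finsupp.single (m :: w, a) c := by
  simp [mu]

lemma LL_mapRange (X : Module.End ℚ (EE N)) (x : Lg N →₀ EE N) :
    LL (Finsupp.mapRange.linearMap X x) = LinearMap.lTensor _ X (LL x) := by
  induction x using Finsupp.induction_linear with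
  | zero => simp
  | add f g hf hg => simp only [map_add, hf, hg]
  | single l v => simp [LL_single]

lemma actM_cons (m : Bx N) (z : Lg N) :
    actM ((m :: z.1, z.2) : Lg N) = mu m * actM z - actM z * mu m := by
  simp [actM, actW]

lemma LL_mapDomain (m : Bx N) (x : Lg N →₀ EE N) :
    LL (Finsupp.lmapDomain (EE N) ℚ (fun z : Lg N => ((m :: z.1, z.2) : Lg N)) x) =
      LinearMap.rTensor _ (adL (mu m)) (LL x) := by
  induction x using Finsupp.induction_linear with
  | zero => simp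
  | add f g hf hg => simp only [map_add, hf, hg]
  | single l v =>
    rw [Finsupp.lmapDomain_apply, Finsupp.mapDomain_single, LL_single, LL_single, actM_cons,
      LinearMap.rTensor_tmul, adL_apply]

lemma PP_mu (m : Bx N) : PP (mu m) (DD (dW [] m)) := by
  intro v
  induction v using Finsupp.induction_linear with
  | zero => simp [ev]
  | add f g hf hg =>
    simp only [map_add]
    rw [hf, hg]
    have : ∀ D : Module.End ℚ (EE N) ⊗[ℚ] Module.End ℚ (EE N), ev (f + g) D = ev f D + ev g D := by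
      intro D
      induction D using TensorProduct.induction_on with
      | zero => simp
      | tmul A B => simp [ev_tmul, tmul_add]
      | add x y hx hy => simp only [map_add, hx, hy]; abel
    rw [this]
    abel
  | single p c =>
    obtain ⟨w, a⟩ := p
    have hs : (Finsupp.single (w, a) c : EE N) = c • Finsupp.single (w, a) (1 : ℚ) := by simp
    have hev : ∀ (v : EE N) (D : Module.End ℚ (EE N) ⊗[ℚ] Module.End ℚ (EE N)),
        ev (c • v) D = c • ev v D := by
      intro v D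
      induction D using TensorProduct.induction_on with
      | zero => simp
      | tmul A B => simp [ev_tmul]
      | add x y hx hy => simp only [map_add, hx, hy, smul_add]
    rw [hs, map_smul, map_smul, map_smul, map_smul, map_smul, map_smul, hev]
    refine Eq.trans (congrArg (fun t => c • t) ?_) (s1 c _ _)
    rw [mu_single, hM_single, hM_single, hW, map_sub, map_add, LL_mapRange, LL_mapDomain]
    have h3 : LL (∑ c, (Finsupp.single (([], (m.1, c)) : Lg N) (Finsupp.single ((c, m.2) :: w, a) (1 : ℚ) : EE N) -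
        Finsupp.single (([], (c, m.2)) : Lg N) (Finsupp.single ((m.1, c) :: w, a) 1))) =
        ev (Finsupp.single (w, a) (1 : ℚ)) (DD (dW [] m)) := by
      rw [dW, map_sum, map_sum, map_sum]
      refine Finset.sum_congr rfl fun c _ => ?_
      rw [map_sub, map_sub, map_sub, LL_single, LL_single, DD_single, DD_single, one_smul, one_smul,
        ev_tmul, ev_tmul]
      simp [actM, actW, mu_single]
    rw [h3]
    simp only [TT, LinearMap.add_apply]

lemma DD_map1 (m : Bx N) (x : Lg N × Lg N →₀ ℚ) :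
    DD (x.mapDomain fun q => (((m :: q.1.1, q.1.2) : Lg N), q.2)) =
      LinearMap.rTensor _ (adL (mu m)) (DD x) := by
  induction x using Finsupp.induction_linear with
  | zero => simp
  | add f g hf hg => simp only [Finsupp.mapDomain_add, map_add, hf, hg]
  | single l c =>
    rw [Finsupp.mapDomain_single, DD_single, DD_single, map_smul, LinearMap.rTensor_tmul, adL_apply,
      actM_cons]

lemma DD_map2 (m : Bx N) (x : Lg N × Lg N →₀ ℚ) :
    DD (x.mapDomain fun q => (q.1, ((m :: q.2.1, q.2.2) : Lg N))) =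
      LinearMap.lTensor _ (adL (mu m)) (DD x) := by
  induction x using Finsupp.induction_linear with
  | zero => simp
  | add f g hf hg => simp only [Finsupp.mapDomain_add, map_add, hf, hg]
  | single l c =>
    rw [Finsupp.mapDomain_single, DD_single, DD_single, map_smul, LinearMap.lTensor_tmul, adL_apply,
      actM_cons]

lemma DD_rec (m : Bx N) (l : List (Bx N)) (b : Bx N) :
    DD (dW (m :: l) b) = a2 (mu m) (DD (dW l b)) - a2 (actW l b) (DD (dW [] m)) := by
  have h3 : DD (∑ c, (Finsupp.single ((((m.1, c) :: l, b), ([], (c, m.2))) : Lg N × Lg N) (1 : ℚ) -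
        Finsupp.single ((((c, m.2) :: l, b), ([], (m.1, c))) : Lg N × Lg N) 1 +
        Finsupp.single ((([], (m.1, c)), ((c, m.2) :: l, b)) : Lg N × Lg N) 1 -
        Finsupp.single ((([], (c, m.2)), ((m.1, c) :: l, b)) : Lg N × Lg N) 1)) =
      - a2 (actW l b) (DD (dW [] m)) := by
    have d0 : dW [] m = ∑ c, (Finsupp.single ((([], (m.1, c)), ([], (c, m.2))) : Lg N × Lg N)
        (1 : ℚ) - Finsupp.single ((([], (c, m.2)), ([], (m.1, c))) : Lg N × Lg N) 1) := rfl
    rw [d0, map_sum, map_sum, map_sum]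
    refine Eq.trans ?_ (s3 _ _)
    refine Finset.sum_congr rfl fun c _ => ?_
    simp only [map_sub, map_add, DD_single, one_smul, a2_tmul]
    simp only [actM, actW]
    have e : ∀ A B : Module.End ℚ (EE N), A * B - B * A = -(B * A - A * B) := by
      intro A B; abel
    rw [e (mu (m.1, c)) (actW l b), e (mu (c, m.2)) (actW l b)]
    simp only [neg_tmul, tmul_neg]
    abel
  have d1 : dW (m :: l) b = (dW l b).mapDomain (fun q => (((m :: q.1.1, q.1.2) : Lg N), q.2)) +
      (dW l b).mapDomain (fun q => (q.1, ((m :: q.2.1, q.2.2) : Lg N))) +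
      ∑ c, (Finsupp.single ((((m.1, c) :: l, b), ([], (c, m.2))) : Lg N × Lg N) (1 : ℚ) -
        Finsupp.single ((((c, m.2) :: l, b), ([], (m.1, c))) : Lg N × Lg N) 1 +
        Finsupp.single ((([], (m.1, c)), ((c, m.2) :: l, b)) : Lg N × Lg N) 1 -
        Finsupp.single ((([], (c, m.2)), ((m.1, c) :: l, b)) : Lg N × Lg N) 1) := rfl
  rw [d1, map_add, map_add, h3, DD_map1, DD_map2]
  have e : a2 (mu m) (DD (dW l b)) = LinearMap.rTensor _ (adL (mu m)) (DD (dW l b)) +
      LinearMap.lTensor _ (adL (mu m)) (DD (dW l b)) := rfl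
  rw [e]
  exact (s2 _ _).symm

lemma PP_all (l : List (Bx N)) (b : Bx N) : PP (actW l b) (DD (dW l b)) := by
  induction l with
  | nil => exact PP_mu b
  | cons m l ih =>
    rw [DD_rec]
    exact PP_bracket _ _ _ _ (PP_mu m) ih

/-- Packet R2. -/
theorem stmtR2 : StmtR2 := by
  intro N z v
  have h := PP_all z.1 z.2 v
  have h1 : ∀ x : Lg N →₀ EE N, TT (actM z) (LL x) =
      (x.sum fun l v' => actM l ⊗ₜ[ℚ] (actM z v')) +
        (x.sum fun l v' => (actM z * actM l - actM l * actM z) ⊗ₜ[ℚ] v') := by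
    intro x
    rw [LL_apply, Finsupp.sum, map_sum, Finsupp.sum, Finsupp.sum, ← Finset.sum_add_distrib]
    refine Finset.sum_congr rfl fun l _ => ?_
    rw [TT_tmul]
  have h2 : ev v (DD (dM z)) = (dM z).sum fun pq c => c • (actM pq.1 ⊗ₜ[ℚ] (actM pq.2 v)) := by
    rw [DD, Finsupp.linearCombination_apply, Finsupp.sum, map_sum, Finsupp.sum]
    refine Finset.sum_congr rfl fun l _ => ?_
    rw [map_smul, ev_tmul]
  rw [← h2, ← h1, ← LL_apply]
  exact h

end Pool.Agent.Helper65.AD
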